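import Mathlib
import Pool.Agent.W827.BW.Stm

set_option autoImplicit false

namespace Pool.Agent.W880.BW

open Pool.Agent.W827.BW

theorem uu_pow (n : ℕ) : 2 * uu n + 1 = 3 ^ n := by
  induction n with
  | zero => rfl
  | succ n ih =>
    rw [uu, pow_succ, ← ih]
    ring

theorem t_LEV : S_LEV := by
  intro t n
  rw [lev, Nat.log_eq_iff (Or.inr ⟨by norm_num, by omega⟩), ← uu_pow n, ← uu_pow (n + 1)]
  constructor
  · rintro ⟨h1, h2⟩
    exact ⟨by omega, by omega⟩
  · rintro ⟨h1, h2⟩
    exact ⟨by omega, by omega⟩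

theorem lev_spec (t : ℕ) : uu (lev t) ≤ t ∧ t ≤ 3 * uu (lev t) := by
  have h := (t_LEV t (lev t)).1 rfl
  rw [uu] at h
  exact ⟨h.1, by omega⟩

theorem uu_pos {n : ℕ} (hn : 0 < n) : 0 < uu n := by
  obtain ⟨m, rfl⟩ : ∃ m, n = m + 1 := ⟨n - 1, by omega⟩
  rw [uu]
  omega

theorem rr_lt {t : ℕ} (ht : 0 < t) : rr t < t := by
  have h := lev_spec t
  have h1 : 0 < uu (lev t) := by
    by_contra hc
    have : uu (lev t) = 0 := by omega
    omega
  rw [rr]
  have : min (t - uu (lev t)) (3 * uu (lev t) - t) ≤ t - uu (lev t) := min_le_left _ _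
  omega

theorem UF_zero (k : ℕ) : UF k 0 = 0 := by
  cases k with
  | zero => rfl
  | succ k => simp [UF]

theorem UF_eq : ∀ k l t : ℕ, t ≤ k → t ≤ l → UF k t = UF l t := by
  intro k
  induction k with
  | zero =>
    intro l t h1 h2
    have : t = 0 := by omega
    subst this
    rw [UF_zero, UF_zero]
  | succ k ih =>
    intro l t h1 h2
    cases l with
    | zero =>
      have : t = 0 := by omega
      subst this
      rw [UF_zero, UF_zero]
    | succ l =>
      rcases Nat.eq_zero_or_pos t with h | h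
      · subst h
        rw [UF_zero, UF_zero]
      · rw [UF, UF, if_neg h.ne', if_neg h.ne']
        have h3 := rr_lt h
        rw [ih l (rr t) (by omega) (by omega)]

theorem UU_zero : UU 0 = 0 := rfl

theorem UU_rec {t : ℕ} (ht : 0 < t) : UU t = lev t + UU (rr t) := by
  obtain ⟨s, rfl⟩ : ∃ s, t = s + 1 := ⟨t - 1, by omega⟩
  have h3 := rr_lt ht
  rw [UU, UF, if_neg ht.ne', UU, UF_eq s (rr (s + 1)) (rr (s + 1)) (by omega) le_rfl]

theorem t_UREC : S_UREC := ⟨UU_zero, fun _ ht => ⟨rr_lt ht, UU_rec ht⟩⟩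

/-- the two cases for the step from `t` to `t + 1` -/
theorem step_cases (t : ℕ) :
    (0 < t ∧ lev (t + 1) = lev t ∧ (rr (t + 1) = rr t + 1 ∨ rr (t + 1) + 1 = rr t)) ∨
    (lev (t + 1) = lev t + 1 ∧ rr t = 0 ∧ rr (t + 1) = 0) := by
  have h := lev_spec t
  rcases Nat.lt_or_ge t (3 * uu (lev t)) with h1 | h1
  · left
    have hl : lev (t + 1) = lev t := by
      rw [t_LEV]
      rw [uu]
      omega
    refine ⟨by omega, hl, ?_⟩
    rw [rr, rr, hl]
    rcases Nat.lt_or_ge t (2 * uu (lev t)) with h2 | h2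
    · left
      rw [min_eq_left (by omega), min_eq_left (by omega)]
      omega
    · right
      rw [min_eq_right (by omega), min_eq_right (by omega)]
      omega
  · right
    have hl : lev (t + 1) = lev t + 1 := by
      rw [t_LEV]
      have e1 : uu (lev t + 1) = 3 * uu (lev t) + 1 := rfl
      have e2 : uu (lev t + 1 + 1) = 3 * uu (lev t + 1) + 1 := rfl
      omega
    refine ⟨hl, ?_, ?_⟩
    · rw [rr, min_eq_right (by omega)]
      omega
    · have e1 : uu (lev t + 1) = 3 * uu (lev t) + 1 := rfl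
      rw [rr, hl, min_eq_left (by omega)]
      omega

theorem UU_step : ∀ t : ℕ, UU (t + 1) = UU t + 1 ∨ UU (t + 1) + 1 = UU t := by
  intro t
  induction t using Nat.strong_induction_on with
  | _ t ih =>
    rcases step_cases t with ⟨h0, h1, h2⟩ | ⟨h1, h2, h3⟩
    · rw [UU_rec (show 0 < t + 1 from Nat.succ_pos t), UU_rec h0, h1]
      have hr := rr_lt h0
      rcases h2 with h2 | h2
      · rw [h2]
        rcases ih (rr t) hr with h | h
        · left; omega
        · right; omega
      · rcases ih (rr (t + 1)) (by omega) with h | h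
        · rw [h2] at h
          right; omega
        · rw [h2] at h
          left; omega
    · left
      rw [UU_rec (show 0 < t + 1 from Nat.succ_pos t), h1, h3, UU_zero]
      rcases Nat.eq_zero_or_pos t with h | h
      · subst h
        rw [UU_zero]
        have : lev 0 = 0 := by
          rw [t_LEV]
          exact ⟨le_rfl, by decide⟩
        rw [this]
      · rw [UU_rec h, h2, UU_zero]

theorem wn_step (t : ℕ) :
    -(lev (t + 1) : ℤ) + UU (rr (t + 1)) = (-(lev t : ℤ) + UU (rr t)) + 1 ∨
    -(lev (t + 1) : ℤ) + UU (rr (t + 1)) = (-(lev t : ℤ) + UU (rr t)) - 1 := by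
  rcases step_cases t with ⟨h0, h1, h2⟩ | ⟨h1, h2, h3⟩
  · rw [h1]
    rcases h2 with h2 | h2
    · rw [h2]
      rcases UU_step (rr t) with h | h
      · left; omega
      · right; omega
    · rw [← h2]
      rcases UU_step (rr (t + 1)) with h | h
      · right; omega
      · left; omega
  · right
    rw [h1, h2, h3]
    push_cast
    ring

theorem t_STEP : S_STEP := by
  intro t
  rw [ww, ww]
  rcases le_or_gt 0 t with h | h
  · have e : (t + 1).natAbs = t.natAbs + 1 := by omega
    rw [e]
    exact wn_step t.natAbs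
  · have e : t.natAbs = (t + 1).natAbs + 1 := by omega
    rw [e]
    rcases wn_step (t + 1).natAbs with h1 | h1
    · right; omega
    · left; omega

end Pool.Agent.W880.BW
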