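import Mathlib
import Pool.Agent.W827.BW.Stm

set_option autoImplicit false

open Filter Topology

namespace Pool.Agent.W880.BW

open Pool.Agent.W827.BW

theorem t_DEG : S_DEG := by
  classical
  intro D w hD v
  obtain ⟨t, i⟩ := v
  have hD0 : 0 < D := by linarith
  obtain ⟨lo, hi, hlh, hcard, hmem⟩ : ∃ lo hi : ℤ, lo ≤ hi + 1 ∧ hi + 1 - lo ≤ D + 1 ∧
      ∀ j, al D w (t - 1) j ≤ i → i ≤ al D w (t - 1) (j + 1) → j ∈ Finset.Icc lo hi := by
    by_cases h : w (t - 1 + 1) = w (t - 1) + 1
    · refine ⟨(i + 1) / D - 1, (i + 1) / D, by linarith, by linarith, ?_⟩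
      intro j h1 h2
      rw [al, if_pos h] at h1 h2
      rw [Finset.mem_Icc]
      constructor
      · have : (i + 1) / D ≤ j + 1 := by
          apply Int.ediv_le_of_le_mul hD0
          linarith
        linarith
      · rw [Int.le_ediv_iff_mul_le hD0]
        linarith
    · refine ⟨i * D - 1, (i + 1) * D - 1, by nlinarith, by nlinarith, ?_⟩
      intro j h1 h2
      rw [al, if_neg h] at h1 h2
      rw [Finset.mem_Icc]
      constructor
      · rw [Int.le_ediv_iff_mul_le hD0] at h2
        linarith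
      · have : j < (i + 1) * D := by
          rw [← Int.ediv_lt_iff_lt_mul hD0]
          linarith
        linarith
  have hup : al D w t (i + 1) + 1 - al D w t i ≤ D + 1 := by
    by_cases h : w (t + 1) = w t + 1
    · rw [al, al, if_pos h, if_pos h]
      nlinarith
    · rw [al, al, if_neg h, if_neg h]
      have : (i + 1) / D ≤ i / D + 1 := by
        calc (i + 1) / D ≤ (i + 1 * D) / D := Int.ediv_le_ediv hD0 (by linarith)
          _ = i / D + 1 := Int.add_mul_ediv_right _ _ hD0.ne'
      linarith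
  obtain ⟨T, hT⟩ : ∃ T : Finset (ℤ × ℤ), T = {(t, i + 1), (t, i - 1)} ∪
      ((Finset.Icc (al D w t i) (al D w t (i + 1))).image (fun j => (t + 1, j)) ∪
        (Finset.Icc lo hi).image (fun j => (t - 1, j))) := ⟨_, rfl⟩
  have hsub : (Wall D w).neighborSet (t, i) ⊆ (T : Set (ℤ × ℤ)) := by
    rintro ⟨t', i'⟩ hadj
    rw [SimpleGraph.mem_neighborSet, Wall, RowGraph, SimpleGraph.fromRel_adj] at hadj
    obtain ⟨_, h⟩ := hadj
    rw [hT, Finset.mem_coe, Finset.mem_union, Finset.mem_union, Finset.mem_insert,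
      Finset.mem_singleton, Finset.mem_image, Finset.mem_image]
    rcases h with (⟨h1, h2⟩ | ⟨h1, h2, h3⟩) | (⟨h1, h2⟩ | ⟨h1, h2, h3⟩)
    · left; left
      exact Prod.ext h1 h2
    · right; left
      exact ⟨i', Finset.mem_Icc.2 ⟨h2, h3⟩, Prod.ext h1.symm rfl⟩
    · left; right
      refine Prod.ext h1.symm ?_
      change i' = i - 1
      have : i = i' + 1 := h2
      linarith
    · right; right
      have e : t' = t - 1 := by
        have : t = t' + 1 := h1
        linarith
      change al D w t' i' ≤ i at h2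
      change i ≤ al D w t' (i' + 1) at h3
      rw [e] at h2 h3
      exact ⟨i', hmem i' h2 h3, Prod.ext e.symm rfl⟩
  have hTc : (T.card : ℤ) ≤ 2 * D + 4 := by
    have c1 : ({(t, i + 1), (t, i - 1)} : Finset (ℤ × ℤ)).card ≤ 2 := Finset.card_le_two
    have c2 : (((Finset.Icc (al D w t i) (al D w t (i + 1))).image
        (fun j => (t + 1, j))).card : ℤ) ≤ D + 1 := by
      have h1 := Finset.card_image_le (s := Finset.Icc (al D w t i) (al D w t (i + 1)))
        (f := fun j => (t + 1, j))
      rw [Int.card_Icc] at h1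
      have h2 : (((al D w t (i + 1) + 1 - al D w t i).toNat : ℕ) : ℤ) ≤ D + 1 := by
        rw [Int.toNat_eq_max]
        exact max_le hup (by linarith)
      exact le_trans (by exact_mod_cast h1) h2
    have c3 : (((Finset.Icc lo hi).image (fun j => (t - 1, j))).card : ℤ) ≤ D + 1 := by
      have h1 := Finset.card_image_le (s := Finset.Icc lo hi) (f := fun j => (t - 1, j))
      rw [Int.card_Icc] at h1
      have h2 : (((hi + 1 - lo).toNat : ℕ) : ℤ) ≤ D + 1 := by
        rw [Int.toNat_eq_max]
        exact max_le hcard (by linarith)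
      exact le_trans (by exact_mod_cast h1) h2
    have c4 := Finset.card_union_le ({(t, i + 1), (t, i - 1)} : Finset (ℤ × ℤ))
      ((Finset.Icc (al D w t i) (al D w t (i + 1))).image (fun j => (t + 1, j)) ∪
        (Finset.Icc lo hi).image (fun j => (t - 1, j)))
    have c5 := Finset.card_union_le
      ((Finset.Icc (al D w t i) (al D w t (i + 1))).image (fun j => (t + 1, j)))
      ((Finset.Icc lo hi).image (fun j => (t - 1, j)))
    rw [← hT] at c4
    omega
  refine ⟨(T.finite_toSet).subset hsub, le_trans ?_ hTc⟩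
  have := Set.ncard_le_ncard hsub T.finite_toSet
  rw [Set.ncard_coe_finset] at this
  exact_mod_cast this

theorem log_le (δ : ℝ) (hδ : 0 < δ) (n : ℕ) (hn : 1 ≤ n) :
    Real.log n ≤ δ * n - 1 - Real.log δ := by
  have hn0 : (0 : ℝ) < n := by exact_mod_cast hn
  have h1 := Real.log_le_sub_one_of_pos (mul_pos hδ hn0)
  rw [Real.log_mul hδ.ne' hn0.ne'] at h1
  linarith

theorem t_ISOF : S_ISOF := by
  classical
  intro V G hV D Om hD hOm h
  have hD1 : (1 : ℝ) < D := by exact_mod_cast (lt_of_lt_of_le (by norm_num : 1 < 2) hD)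
  have hlD : 0 < Real.log D := Real.log_pos hD1
  have key : ∀ C₀ : ℝ, 0 < C₀ → ∃ K : ℝ, 0 ≤ K ∧ ∀ A : Set V, A.Finite → 1 ≤ A.ncard →
      2 * K ≤ Real.log A.ncard → C₀ * Real.log A.ncard ≤ ((edgeBoundary G A).ncard : ℝ) := by
    intro C₀ hC
    obtain ⟨C, hC1⟩ := hOm (1 / (4 * C₀ * Real.log D)) (by positivity)
    obtain ⟨K, hK⟩ : ∃ K : ℝ, K = max 0 (2 * (- 1 - Real.log (1 / (8 * C₀))) + C * Real.log D) :=
      ⟨_, rfl⟩
    refine ⟨K, hK ▸ le_max_left _ _, ?_⟩
    intro A hA hA1 hlog
    obtain ⟨n, hn⟩ : ∃ n, n = (edgeBoundary G A).ncard := ⟨_, rfl⟩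
    have h1 := h A hA
    rw [← hn] at h1 ⊢
    have hn1 : 1 ≤ n := by
      by_contra hc
      have : n = 0 := by omega
      rw [this] at h1
      simp at h1
      omega
    have hn0 : (0 : ℝ) < n := by exact_mod_cast hn1
    have hA0 : (0 : ℝ) < A.ncard := by exact_mod_cast hA1
    have h2 : Real.log A.ncard ≤ 2 * Real.log n + Om n * Real.log D := by
      have h3 : (A.ncard : ℝ) ≤ (n : ℝ) ^ 2 * (D : ℝ) ^ Om n := by exact_mod_cast h1
      have h4 := Real.log_le_log hA0 h3
      rw [Real.log_mul (by positivity) (by positivity), Real.log_pow, Real.log_pow] at h4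
      push_cast at h4
      exact h4
    have h5 := log_le (1 / (8 * C₀)) (by positivity) n hn1
    have h6 : (Om n : ℝ) * Real.log D ≤ n / (4 * C₀) + C * Real.log D := by
      have h7 := mul_le_mul_of_nonneg_right (hC1 n) hlD.le
      have h8 : (1 / (4 * C₀ * Real.log D) * n + C) * Real.log D =
          n / (4 * C₀) + C * Real.log D := by
        field_simp
      rw [h8] at h7
      exact h7
    have h9 : 2 * (- 1 - Real.log (1 / (8 * C₀))) + C * Real.log D ≤ K := hK ▸ le_max_right _ _
    have h10 : Real.log A.ncard ≤ n / (2 * C₀) + K := by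
      have h11 : 2 * (1 / (8 * C₀) * n) + n / (4 * C₀) = n / (2 * C₀) := by
        field_simp
        ring
      linarith
    have h12 : Real.log A.ncard / 2 ≤ n / (2 * C₀) := by linarith
    have h13 := mul_le_mul_of_nonneg_left h12 (by positivity : 0 ≤ 2 * C₀)
    have h14 : 2 * C₀ * (n / (2 * C₀)) = n := by field_simp
    rw [h14] at h13
    linarith
  obtain ⟨S, hS⟩ : ∃ S : ℕ → Set ℝ, S = fun N : ℕ => {x : ℝ | ∃ A : Set V, A.Finite ∧
      A.ncard = N ∧ x = ((edgeBoundary G A).ncard : ℝ) / Real.log N} := ⟨_, rfl⟩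
  have hS0 : ∀ N, ∀ x ∈ S N, 0 ≤ x := by
    intro N x hx
    rw [hS] at hx
    obtain ⟨A, _, _, rfl⟩ := hx
    exact div_nonneg (Nat.cast_nonneg _) (Real.log_natCast_nonneg _)
  refine ⟨fun N => sInf (S N), fun N => Real.sInf_nonneg (hS0 N), ?_, ?_⟩
  · rw [tendsto_atTop]
    intro b
    obtain ⟨K, hK0, hK⟩ := key (max b 1) (lt_max_of_lt_right one_pos)
    have ht : Tendsto (fun N : ℕ => Real.log N) atTop atTop :=
      Real.tendsto_log_atTop.comp tendsto_natCast_atTop_atTop
    filter_upwards [ht.eventually_ge_atTop (2 * K), eventually_ge_atTop 2] with N hN hN2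
    refine le_trans (le_max_left b 1) ?_
    apply le_csInf
    · obtain ⟨s, hs⟩ := Infinite.exists_subset_card_eq V N
      refine ⟨((edgeBoundary G (s : Set V)).ncard : ℝ) / Real.log N, ?_⟩
      rw [hS]
      exact ⟨(s : Set V), s.finite_toSet, by rw [Set.ncard_coe_finset, hs], rfl⟩
    · intro x hx
      rw [hS] at hx
      obtain ⟨A, hA, hAN, rfl⟩ := hx
      have h1 := hK A hA (by omega) (by rw [hAN]; exact hN)
      rw [hAN] at h1
      have hl : 0 < Real.log N := Real.log_pos (by exact_mod_cast hN2)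
      rw [le_div_iff₀ hl]
      exact h1
  · intro A hA
    rcases Nat.lt_or_ge 1 A.ncard with h1 | h1
    · have hl : 0 < Real.log A.ncard := Real.log_pos (by exact_mod_cast h1)
      rw [← le_div_iff₀ hl]
      apply csInf_le ⟨0, fun x hx => hS0 _ x hx⟩
      rw [hS]
      exact ⟨A, hA, rfl, rfl⟩
    · have : Real.log A.ncard = 0 := by
        interval_cases A.ncard <;> simp
      rw [this, mul_zero]
      exact Nat.cast_nonneg _

end Pool.Agent.W880.BW
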